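import Pool.Agent.Y305.GD.Reg

/-! Genuine boundary singularities of dimension one; all other points of the interface are
regular. -/

set_option autoImplicit false

open MeasureTheory Metric Set Filter Topology
open scoped ContDiff ENNReal

namespace Pool.Agent.Y305.GD

open Pool.Agent.Y305.BC (KK chi)

theorem full : ∃ (φ : ℝ → ℂ) (gp : ℂ → Fin 2 → ℂ) (gm : ℂ → Fin 1 → ℂ),
    ContDiff ℝ ∞ φ ∧ Pool.Agent.TH300.IsDirMinimizing 1 (ball 0 1) φ gp gm ∧
      dimH {p | Pool.Agent.TH300.IsGenuine 1 (ball 0 1) gp gm p} = 1 ∧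
      ∀ p ∈ ball (0 : ℂ) 1, p.im = 0 →
        (IsRegularPt 1 (ball 0 1) gp gm p ↔
          ¬ Pool.Agent.TH300.IsGenuine 1 (ball 0 1) gp gm p) := by
  obtain ⟨q, q', d⟩ := exists_QD
  obtain ⟨φ, Fp, Fm, Fp', Fm', L, h⟩ := d.ex_exists
  refine ⟨φ, fun z => ![Fp z, Fp z - q z], fun z => ![Fm z], h.sm, h.minimizing d,
    le_antisymm (dim_le_one fun p hp => hp.2.1) (dim_ofReal.trans (dimH_mono ?_)),
    fun p hp hp0 => ⟨fun hr => hr.not_genuine, fun hg => ?_⟩⟩
  · rintro _ ⟨x, hx, rfl⟩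
    exact h.genuine d hx
  · have hpx : p = (p.re : ℂ) := Complex.ext (by simp) (by simp [hp0])
    by_cases hx : p.re ∈ KK
    · refine absurd ?_ hg
      rw [hpx]
      exact h.genuine d hx
    · rw [hpx]
      refine h.regular d ?_ (Pool.Agent.Y305.BC.can.2.2.2.2.2.1 _ hx)
      rw [mem_ball_zero_iff] at hp
      exact (Complex.abs_re_le_norm p).trans_lt hp

end Pool.Agent.Y305.GD
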