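import Pool.Agent.Y305.GD.Gen
import Pool.Agent.Y305.BC.Can
import Pool.Agent.Y305.BC.Ky
import Pool.Agent.Y361.BC.Dim
import Pool.Agent.Y764.BC.Pot
import Pool.Agent.Y96.BC.Qsm

/-! The periodic function on the half plane with a Cantor set of zeros of dimension one. -/

set_option autoImplicit false

open MeasureTheory Metric Set Filter Topology
open scoped ContDiff ENNReal

namespace Pool.Agent.Y305.GD

open Pool.Agent.Y305.BC (KK KC dk chi ex av Pot Nice)

/-- `exp(2πiz)` -/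
noncomputable def ez (z : ℂ) : ℂ := Complex.exp (2 * Real.pi * Complex.I * z)

theorem ez_real (t : ℝ) : ez t = ex t := by
  unfold ez ex
  congr 1
  ring

theorem ez_norm (z : ℂ) : ‖ez z‖ = Real.exp (-(2 * Real.pi * z.im)) := by
  unfold ez
  rw [Complex.norm_exp]
  congr 1
  simp [Complex.mul_re, Complex.mul_im]

theorem ez_le {z : ℂ} (hz : 0 ≤ z.im) : ‖ez z‖ ≤ 1 := by
  rw [ez_norm, Real.exp_le_one_iff]
  have := Real.pi_pos
  nlinarith [mul_nonneg this.le hz]

theorem ez_lt {z : ℂ} (hz : 0 < z.im) : ‖ez z‖ < 1 := by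
  rw [ez_norm, Real.exp_lt_one_iff]
  have := Real.pi_pos
  nlinarith [mul_pos this hz]

theorem ez_pos (z : ℂ) : 0 < ‖ez z‖ := by
  rw [ez_norm]
  exact Real.exp_pos _

theorem ez_deriv (z : ℂ) : HasDerivAt ez (2 * Real.pi * Complex.I * ez z) z := by
  have h1 : HasDerivAt (fun z : ℂ => 2 * Real.pi * Complex.I * z) (2 * Real.pi * Complex.I) z := by
    simpa using (hasDerivAt_id z).const_mul (2 * Real.pi * Complex.I : ℂ)
  have h2 := h1.cexp
  have e : 2 * Real.pi * Complex.I * ez z = Complex.exp (2 * Real.pi * Complex.I * z) *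
      (2 * Real.pi * Complex.I) := by
    unfold ez
    ring
  rw [e]
  exact h2

theorem lip_half {q' : ℂ → ℂ} {f : ℂ → ℂ} {M : ℝ} (hd : ∀ z : ℂ, 0 < z.im → HasDerivAt f (q' z) z)
    (hM : ∀ z : ℂ, 0 < z.im → ‖q' z‖ ≤ M) (hc : ContinuousOn f {z : ℂ | 0 ≤ z.im}) (z w : ℂ)
    (hz : 0 ≤ z.im) (hw : 0 ≤ w.im) : ‖f z - f w‖ ≤ M * ‖z - w‖ := by
  have key : ∀ ε : ℝ, 0 < ε →
      ‖f (z + ε * Complex.I) - f (w + ε * Complex.I)‖ ≤ M * ‖z - w‖ := by
    intro ε hε
    have h := (convex_halfSpace_im_gt 0).norm_image_sub_le_of_norm_hasDerivWithin_le (𝕜 := ℂ)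
      (f := f) (f' := q') (C := M) (x := w + ε * Complex.I) (y := z + ε * Complex.I)
      (fun x hx => (hd x hx).hasDerivWithinAt) (fun x hx => hM x hx)
      (by
        show 0 < (w + ε * Complex.I).im
        simp; linarith)
      (by
        show 0 < (z + ε * Complex.I).im
        simp; linarith)
    have e : (z + ε * Complex.I) - (w + ε * Complex.I) = z - w := by ring
    rwa [e] at h
  have lim : ∀ v : ℂ, 0 ≤ v.im →
      Tendsto (fun ε : ℝ => f (v + ε * Complex.I)) (𝓝[>] 0) (𝓝 (f v)) := by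
    intro v hv
    have c1 : Tendsto (fun ε : ℝ => (v + ε * Complex.I : ℂ)) (𝓝[>] 0) (𝓝[{z : ℂ | 0 ≤ z.im}] v) := by
      refine tendsto_nhdsWithin_iff.2 ⟨?_, ?_⟩
      · have : Continuous fun ε : ℝ => (v + ε * Complex.I : ℂ) := by fun_prop
        have h0 := this.tendsto 0
        rw [Complex.ofReal_zero, zero_mul, add_zero] at h0
        exact h0.mono_left nhdsWithin_le_nhds
      · filter_upwards [self_mem_nhdsWithin] with ε hε
        have hε' : 0 < ε := hε
        show 0 ≤ (v + ε * Complex.I).im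
        simp; linarith
    exact (hc v hv).tendsto.comp c1
  refine le_of_tendsto ((lim z hz).sub (lim w hw)).norm ?_
  filter_upwards [self_mem_nhdsWithin] with ε hε
  exact key ε hε

theorem exists_QD : ∃ (q q' : ℂ → ℂ), QD KK q q' chi := by
  obtain ⟨hK, hsub, c3, c4, c5, c6, c7, c8, c9⟩ := Pool.Agent.Y305.BC.can
  obtain ⟨q, RR, c, hP⟩ := Pool.Agent.Y764.BC.pot hK c3 c4
  obtain ⟨q', hN, hχ⟩ := Pool.Agent.Y96.BC.qsm q RR c hK hP
  have hcomp : IsCompact {z : ℂ | 0 ≤ ‖z‖ ∧ ‖z‖ ≤ 1} := by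
    have : {z : ℂ | 0 ≤ ‖z‖ ∧ ‖z‖ ≤ 1} = closedBall 0 1 := by
      ext z
      simp
    rw [this]
    exact isCompact_closedBall _ _
  obtain ⟨M, hM⟩ := hcomp.exists_bound_of_continuousOn hN.cont'
  have hM0 : 0 ≤ M := (norm_nonneg _).trans (hM 0 (by simp))
  have hne : ∀ z : ℂ, ‖z‖ ≤ 1 → z ∉ KC → q z ≠ 0 := fun z hz hk =>
    hP.2.2.2.1 z (Pool.Agent.Y96.BC.mem_RR hP hz hk)
  have hgap : ∀ x ∈ KK, ∀ t : ℝ, |t - x| < 1 / 4 → t ∉ KK → q (ez t) ≠ 0 := by
    intro x hx t ht htK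
    refine hne _ (ez_le (by simp)) ?_
    rw [ez_real]
    rintro ⟨s, hs, hst⟩
    have h1 := hsub hx
    have h2 := hsub hs
    rw [abs_lt] at ht
    have : s = t := Pool.Agent.Y305.BC.ex_inj hst (by
      rw [abs_lt]
      constructor <;> linarith [h1.1, h1.2, h2.1, h2.2, ht.1, ht.2])
    exact htK (this ▸ hs)
  refine ⟨fun z => q (ez z), fun z => q' (ez z) * (2 * Real.pi * Complex.I * ez z), hsub,
    fun z hz => ?_, fun z hz => ?_, ⟨M * (2 * Real.pi), by have := Real.pi_pos; positivity, ?_⟩,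
    c5, c7, ?_, ?_, ?_, ?_⟩
  · exact (hN.der (ez z) (ez_pos z) (ez_lt hz)).comp z (ez_deriv z)
  · refine hne _ (ez_le hz.le) fun hk => ?_
    have h1 := Pool.Agent.Y305.BC.KC_norm hk
    have h2 := ez_lt hz
    linarith
  · intro z w hz hw
    refine lip_half (f := fun z => q (ez z))
      (q' := fun z => q' (ez z) * (2 * Real.pi * Complex.I * ez z))
      (fun z hz => (hN.der (ez z) (ez_pos z) (ez_lt hz)).comp z (ez_deriv z)) ?_ ?_ z w hz hw
    · intro z hz
      rw [norm_mul]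
      refine mul_le_mul (hM _ ⟨norm_nonneg _, (ez_lt hz).le⟩) ?_ (norm_nonneg _) hM0
      rw [norm_mul, norm_mul, norm_mul, Complex.norm_I, Complex.norm_real, Real.norm_eq_abs,
        abs_of_pos Real.pi_pos, mul_one]
      have h1 := (ez_lt hz).le
      have h2 := Real.pi_pos
      simp only [Complex.norm_ofNat]
      nlinarith
    · refine hN.cont.comp ?_ fun z hz => ⟨norm_nonneg _, ez_le hz⟩
      exact (Continuous.continuousOn (by unfold ez; fun_prop))
  · have h1 := (hχ chi (fun t => by rcases c5 t with h | h <;> rw [h] <;> norm_num) c6).1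
    simpa only [ez_real] using h1
  · have h1 := (hχ (fun t => 1 - chi t)
      (fun t => by rcases c5 t with h | h <;> simp [h]) (fun t ht => by
        filter_upwards [c6 t ht] with s hs
        rw [hs])).1
    simpa only [ez_real] using h1
  · intro x hx δ hδ
    obtain ⟨t, t1, t2, t3⟩ := c8 x hx (min δ (1 / 4)) (by positivity)
    exact ⟨t, t1.trans_le (min_le_left _ _), hgap x hx t (t1.trans_le (min_le_right _ _)) t2, t3⟩
  · intro x hx δ hδ
    obtain ⟨t, t1, t2, t3⟩ := c9 x hx (min δ (1 / 4)) (by positivity)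
    exact ⟨t, t1.trans_le (min_le_left _ _), hgap x hx t (t1.trans_le (min_le_right _ _)) t2, t3⟩

theorem dim_ofReal : 1 ≤ dimH ((fun x : ℝ => (x : ℂ)) '' KK) := by
  rw [Complex.isometry_ofReal.dimH_image]
  exact Pool.Agent.Y361.BC.dim

theorem dim_le_one {A : Set ℂ} (hA : ∀ p ∈ A, p.im = 0) : dimH A ≤ 1 := by
  have h1 : A ⊆ (fun x : ℝ => (x : ℂ)) '' univ := fun p hp =>
    ⟨p.re, mem_univ _, Complex.ext (by simp) (by simp [hA p hp])⟩
  refine (dimH_mono h1).trans ?_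
  rw [Complex.isometry_ofReal.dimH_image, Real.dimH_univ_eq_finrank]
  simp

theorem main : ∃ (φ : ℝ → ℂ) (gp : ℂ → Fin 2 → ℂ) (gm : ℂ → Fin 1 → ℂ),
    ContDiff ℝ ∞ φ ∧ Pool.Agent.TH300.IsDirMinimizing 1 (ball 0 1) φ gp gm ∧
      dimH {p | Pool.Agent.TH300.IsGenuine 1 (ball 0 1) gp gm p} = 1 := by
  obtain ⟨q, q', d⟩ := exists_QD
  obtain ⟨φ, gp, gm, h1, h2, h3⟩ := d.main
  refine ⟨φ, gp, gm, h1, h2, le_antisymm (dim_le_one fun p hp => hp.2.1)
    (dim_ofReal.trans (dimH_mono ?_))⟩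
  rintro _ ⟨x, hx, rfl⟩
  exact h3 x hx

end Pool.Agent.Y305.GD
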