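import Pool.Agent.TH300.Ge

/-! Genuine boundary singularities on a prescribed set: the general construction
(after `Pool/Agent/TH300/Fi.lean` and `Pool/Agent/TH300/Ge.lean`). -/

set_option autoImplicit false

open MeasureTheory Metric Set Filter Topology
open scoped ContDiff ENNReal

namespace Pool.Agent.Y305.GD

open Pool.Agent.TH300 (G side G_swap datum lemT dir_le calib lim_up lim_down G_zero G_one G_comm
  isOpen_side side_subset Dominates IsTrace Dir IsDirMinimizing IsHalfValued IsGenuine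
  fourier_decomp)

/-- the data: a set `K`, a holomorphic function `q` vanishing on `K`, an indicator `χ` -/
structure QD (K : Set ℝ) (q q' : ℂ → ℂ) (χ : ℝ → ℝ) : Prop where
  sub : K ⊆ Icc 0 (1 / 4)
  der : ∀ z : ℂ, 0 < z.im → HasDerivAt q (q' z) z
  ne : ∀ z : ℂ, 0 < z.im → q z ≠ 0
  lip : ∃ L : ℝ, 0 ≤ L ∧ ∀ z w : ℂ, 0 ≤ z.im → 0 ≤ w.im → ‖q z - q w‖ ≤ L * ‖z - w‖
  cases : ∀ t, χ t = 0 ∨ χ t = 1
  out : ∀ t ∉ Icc (0 : ℝ) (1 / 4), χ t = 0
  sm1 : ContDiff ℝ ∞ fun t : ℝ => (χ t : ℂ) * q t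
  sm2 : ContDiff ℝ ∞ fun t : ℝ => ((1 - χ t : ℝ) : ℂ) * q t
  gap0 : ∀ x ∈ K, ∀ δ > 0, ∃ t : ℝ, |t - x| < δ ∧ q t ≠ 0 ∧ χ t = 0
  gap1 : ∀ x ∈ K, ∀ δ > 0, ∃ t : ℝ, |t - x| < δ ∧ q t ≠ 0 ∧ χ t = 1

/-- the data of the example -/
structure Ex (q : ℂ → ℂ) (χ : ℝ → ℝ) (φ : ℝ → ℂ) (Fp Fm Fp' Fm' : ℂ → ℂ) (L : ℝ) : Prop where
  hL : 0 ≤ L
  lp : ∀ z w : ℂ, 0 ≤ 1 * z.im → 0 ≤ 1 * w.im → ‖Fp z - Fp w‖ ≤ L * ‖z - w‖
  lm : ∀ z w : ℂ, 0 ≤ -1 * z.im → 0 ≤ -1 * w.im → ‖Fm z - Fm w‖ ≤ L * ‖z - w‖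
  lq : ∀ z w : ℂ, 0 ≤ 1 * z.im → 0 ≤ 1 * w.im → ‖(Fp z - q z) - (Fp w - q w)‖ ≤ L * ‖z - w‖
  dp : ∀ z : ℂ, 0 < 1 * z.im → HasDerivAt Fp (Fp' z) z
  dm : ∀ z : ℂ, 0 < -1 * z.im → HasDerivAt Fm (Fm' z) z
  sm : ContDiff ℝ ∞ φ
  eφ : ∀ x : ℝ, φ x = Fp x - ((1 - χ x : ℝ) : ℂ) * q x
  eh : ∀ x : ℝ, Fp x - Fm x = (χ x : ℂ) * q x

variable {K : Set ℝ} {q q' : ℂ → ℂ} {χ : ℝ → ℝ}

theorem QD.supp (d : QD K q q' χ) : HasCompactSupport fun t : ℝ => (χ t : ℂ) * q t := by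
  refine HasCompactSupport.intro (isCompact_Icc (a := (0:ℝ)) (b := 1 / 4)) fun t ht => ?_
  rw [d.out t ht]
  simp

theorem QD.ex_exists (d : QD K q q' χ) : ∃ φ Fp Fm Fp' Fm' L, Ex q χ φ Fp Fm Fp' Fm' L := by
  obtain ⟨Fp, Fm, Fp', Fm', L, hL, a1, a2, a3, a4, a5, a6⟩ := fourier_decomp d.sm1 d.supp
  obtain ⟨Lq, hLq, b1⟩ := d.lip
  refine ⟨fun x => Fp x - ((1 - χ x : ℝ) : ℂ) * q x, Fp, Fm, Fp', Fm', L + Lq,
    ⟨by positivity, fun z w hz hw => ?_, fun z w hz hw => ?_, fun z w hz hw => ?_, a3, a4,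
    a5.sub d.sm2, fun x => rfl, a6⟩⟩
  · refine (a1 z w hz hw).trans ?_
    exact mul_le_mul_of_nonneg_right (by linarith) (norm_nonneg _)
  · refine (a2 z w hz hw).trans ?_
    exact mul_le_mul_of_nonneg_right (by linarith) (norm_nonneg _)
  · have e : (Fp z - q z) - (Fp w - q w) = (Fp z - Fp w) - (q z - q w) := by ring
    rw [e]
    refine (norm_sub_le _ _).trans ?_
    have h1 := a1 z w hz hw
    have h2 := b1 z w (by linarith) (by linarith)
    linarith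

variable {φ : ℝ → ℂ} {Fp Fm Fp' Fm' : ℂ → ℂ} {L : ℝ}

theorem Ex.lemP (d : QD K q q' χ) (h : Ex q χ φ Fp Fm Fp' Fm' L) :
    Dominates (side (ball 0 1) 1) (fun z => (![Fp z, Fp z - q z] : Fin 2 → ℂ))
      (fun _ z => Real.sqrt (‖Fp' z‖ ^ 2 + ‖Fp' z - q' z‖ ^ 2)) ∧
    ∀ T, IsTrace (ball 0 1) 1 (fun z => G (![Fp z, Fp z - q z] : Fin 2 → ℂ) T)
      (fun x => G (![Fp x, Fp x - q x] : Fin 2 → ℂ) T) := by
  have key := lemT (Q := 2) (σ := 1) (Or.inl rfl) (u := ![Fp, fun z => Fp z - q z])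
    (u' := ![Fp', fun z => Fp' z - q' z]) h.hL (by
      intro i z w hz hw
      fin_cases i
      · exact h.lp z w hz hw
      · exact h.lq z w hz hw) (by
      intro i z hz
      fin_cases i
      · exact h.dp z hz.2
      · exact (h.dp z hz.2).sub (d.der z (by linarith [hz.2])))
  have e1 : ∀ z : ℂ, (fun i => (![Fp, fun z => Fp z - q z] : Fin 2 → ℂ → ℂ) i z) =
      (![Fp z, Fp z - q z] : Fin 2 → ℂ) := by
    intro z; ext i; fin_cases i <;> rfl
  have e2 : ∀ z : ℂ, ∑ i, ‖(![Fp', fun z => Fp' z - q' z] : Fin 2 → ℂ → ℂ) i z‖ ^ 2 =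
      ‖Fp' z‖ ^ 2 + ‖Fp' z - q' z‖ ^ 2 := by
    intro z; rw [Fin.sum_univ_two]; rfl
  simp only [e1, e2] at key
  exact key

theorem Ex.lemM (h : Ex q χ φ Fp Fm Fp' Fm' L) :
    Dominates (side (ball 0 1) (-1)) (fun z => (![Fm z] : Fin 1 → ℂ))
      (fun _ z => Real.sqrt (‖Fm' z‖ ^ 2)) ∧
    ∀ T, IsTrace (ball 0 1) (-1) (fun z => G (![Fm z] : Fin 1 → ℂ) T)
      (fun x => G (![Fm x] : Fin 1 → ℂ) T) := by
  have key := lemT (Q := 1) (σ := -1) (Or.inr rfl) (u := ![Fm])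
    (u' := ![Fm']) h.hL (by
      intro i z w hz hw
      fin_cases i
      exact h.lm z w hz hw) (by
      intro i z hz
      fin_cases i
      exact h.dm z hz.2)
  have e1 : ∀ z : ℂ, (fun i => (![Fm] : Fin 1 → ℂ → ℂ) i z) = (![Fm z] : Fin 1 → ℂ) := by
    intro z; ext i; fin_cases i; rfl
  have e2 : ∀ z : ℂ, ∑ i, ‖(![Fm'] : Fin 1 → ℂ → ℂ) i z‖ ^ 2 = ‖Fm' z‖ ^ 2 := by
    intro z; rw [Fin.sum_univ_one]; rfl
  simp only [e1, e2] at key
  exact key

theorem Ex.trace_eq (d : QD K q q' χ) (h : Ex q χ φ Fp Fm Fp' Fm' L) (x : ℝ) (T : Fin 2 → ℂ) :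
    G (![Fp x, Fp x - q x] : Fin 2 → ℂ) T = G (Fin.cons (φ x) ![Fm x]) T := by
  have e0 : (Fin.cons (φ x) ![Fm x] : Fin 2 → ℂ) = ![φ x, Fm x] := rfl
  rw [e0]
  have h1 := h.eφ x
  have h2 := h.eh x
  rcases d.cases x with hc | hc
  · rw [hc] at h1 h2
    simp only [Complex.ofReal_zero, zero_mul, sub_zero, Complex.ofReal_one, one_mul] at h1 h2
    rw [h1, ← sub_eq_zero.1 h2, G_swap]
  · rw [hc] at h1 h2
    simp only [sub_self, Complex.ofReal_zero, zero_mul, sub_zero, Complex.ofReal_one,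
      one_mul] at h1 h2
    rw [h1]
    have h3 : Fm x = Fp x - q x := by
      rw [← h2]; ring
    rw [h3]

theorem Ex.half (d : QD K q q' χ) (h : Ex q χ φ Fp Fm Fp' Fm' L) :
    IsHalfValued 1 (ball 0 1) φ (fun z => ![Fp z, Fp z - q z]) (fun z => ![Fm z]) := by
  refine ⟨⟨_, (h.lemP d).1⟩, ⟨_, h.lemM.1⟩, fun x => ![Fm x], h.lemM.2, fun T => ?_⟩
  have h1 := (h.lemP d).2 T
  have e : (fun x : ℝ => G (![Fp x, Fp x - q x] : Fin 2 → ℂ) T) =
      fun x : ℝ => G (Fin.cons (φ x) ![Fm x]) T := by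
    ext x
    exact h.trace_eq d x T
  rw [e] at h1
  exact h1

theorem Ex.minimizing (d : QD K q q' χ) (h : Ex q χ φ Fp Fm Fp' Fm' L) :
    IsDirMinimizing 1 (ball 0 1) φ (fun z => ![Fp z, Fp z - q z]) (fun z => ![Fm z]) := by
  refine calib (datum h.sm) (F₁ := Fp) (F₂ := fun z => Fp z - q z) (F₁' := Fp')
    (F₂' := fun z => Fp' z - q' z) (v := Fm) (v' := Fm') (h.half d) (fun z hz => h.dp z hz.2)
    (fun z hz => (h.dp z hz.2).sub (d.der z (by linarith [hz.2]))) (fun z hz => h.dm z hz.2)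
    (fun z hz => ?_) (fun z => rfl) (fun z => rfl) ?_ ?_
  · intro h0
    have : q z = 0 := by
      have h1 : Fp z - (Fp z - q z) = 0 := sub_eq_zero.2 h0
      rwa [sub_sub_cancel] at h1
    exact d.ne z (by linarith [hz.2]) this
  · have := dir_le (P := fun z => ‖Fp' z‖ ^ 2 + ‖Fp' z - q' z‖ ^ 2)
      (fun z => by positivity) (h.lemP d).1
    simpa only [mul_add] using this
  · exact dir_le (P := fun z => ‖Fm' z‖ ^ 2) (fun z => by positivity) h.lemM.1

theorem Ex.genuine (d : QD K q q' χ) (h : Ex q χ φ Fp Fm Fp' Fm' L) {x₀ : ℝ} (hx₀ : x₀ ∈ K) :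
    IsGenuine 1 (ball 0 1) (fun z => ![Fp z, Fp z - q z]) (fun z => ![Fm z]) (x₀ : ℂ) := by
  set p : ℂ := (x₀ : ℂ) with hp
  have hI := d.sub hx₀
  refine ⟨?_, by simp [hp], ?_⟩
  · rw [mem_ball_zero_iff, hp, Complex.norm_real, Real.norm_eq_abs, abs_lt]
    constructor <;> linarith [hI.1, hI.2]
  rintro ⟨r, hr, hsub, u, u₁, hu, hu₁, a1, a2, -⟩
  set w : ℂ → ℂ := u 0 with hw
  have hwc : ContinuousOn w (ball p r) := hu 0
  have hS : ∀ σ, IsOpen (side (ball p r) σ) := fun σ => isOpen_side isOpen_ball σ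
  have hFpc : ContinuousOn Fp (side (ball p r) 1) := fun z hz =>
    (h.dp z hz.2).continuousAt.continuousWithinAt
  have hFmc : ContinuousOn Fm (side (ball p r) (-1)) := fun z hz =>
    (h.dm z hz.2).continuousAt.continuousWithinAt
  have hqc : ContinuousOn q (side (ball p r) 1) := fun z hz =>
    (d.der z (by linarith [hz.2])).continuousAt.continuousWithinAt
  have hqne : ∀ z ∈ side (ball p r) 1, q z ≠ 0 := fun z hz => d.ne z (by linarith [hz.2])
  -- below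
  have b1 : EqOn w Fm (side (ball p r) (-1)) := by
    refine Measure.eqOn_open_of_ae_eq (μ := volume) ?_ (hS _) (hwc.mono (side_subset _ _)) hFmc
    filter_upwards [a2] with z hz
    rw [G_one] at hz
    have := norm_eq_zero.1 hz
    exact (sub_eq_zero.1 this).symm
  -- above
  have b2 : EqOn (fun z => (w z - Fp z) * (w z - (Fp z - q z))) (fun _ => 0)
      (side (ball p r) 1) := by
    refine Measure.eqOn_open_of_ae_eq (μ := volume) ?_ (hS _)
      (((hwc.mono (side_subset _ _)).sub hFpc).mul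
        ((hwc.mono (side_subset _ _)).sub (hFpc.sub hqc))) continuousOn_const
    filter_upwards [a1] with z hz
    rw [G_comm] at hz
    obtain ⟨σ, hσ⟩ := G_zero hz
    have e1 : w z = (![Fp z, Fp z - q z] : Fin 2 → ℂ) (σ 1) := congrFun hσ 1
    have hF : ∀ a : Fin 2, a = 0 ∨ a = 1 := by decide
    rcases hF (σ 1) with h0 | h0
    · rw [h0] at e1
      have e2 : w z = Fp z := e1
      simp only [e2, sub_self, zero_mul]
    · rw [h0] at e1
      have e2 : w z = Fp z - q z := e1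
      simp only [e2, sub_self, mul_zero]
  have b3 : (∀ z ∈ side (ball p r) 1, w z = Fp z) ∨ ∀ z ∈ side (ball p r) 1, w z = Fp z - q z := by
    have hconv : Convex ℝ (side (ball p r) 1) := by
      have e : side (ball p r) 1 = ball p r ∩ {z : ℂ | 0 < z.im} := by
        ext z
        simp [side]
      rw [e]
      exact (convex_ball p r).inter (convex_halfSpace_im_gt 0)
    have hfin : ({0, 1} : Set ℂ).Finite := by simp
    obtain ⟨y, hy, hy2⟩ := hconv.isPreconnected.eqOn_const_of_mapsTo (T := ({0, 1} : Set ℂ))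
      hfin.isDiscrete (f := fun z => (Fp z - w z) / q z)
      ((hFpc.sub (hwc.mono (side_subset _ _))).div hqc hqne) (by
        intro z hz
        rcases mul_eq_zero.1 (b2 hz) with h1 | h1
        · left
          show (Fp z - w z) / q z = 0
          rw [sub_eq_zero.1 h1, sub_self, zero_div]
        · right
          show (Fp z - w z) / q z = 1
          rw [sub_eq_zero.1 h1, sub_sub_cancel, div_self (hqne z hz)]) ⟨0, by simp⟩
    rcases hy with h0 | h0
    · left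
      intro z hz
      have := hy2 hz
      simp only [Function.const] at this
      rw [h0, div_eq_zero_iff] at this
      rcases this with h1 | h1
      · exact (sub_eq_zero.1 h1).symm
      · exact absurd h1 (hqne z hz)
    · right
      intro z hz
      have := hy2 hz
      simp only [Function.const] at this
      rw [show y = 1 from h0, div_eq_one_iff_eq (hqne z hz)] at this
      rw [← this]
      ring
  -- limits at real points
  have lim_w : ∀ x : ℝ, (x : ℂ) ∈ ball p r →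
      Tendsto (fun ε : ℝ => w (x + ε * Complex.I)) (𝓝[>] 0) (𝓝 (w x)) ∧
      Tendsto (fun ε : ℝ => w (x - ε * Complex.I)) (𝓝[>] 0) (𝓝 (w x)) ∧
      (∀ᶠ ε : ℝ in 𝓝[>] 0, (x + ε * Complex.I : ℂ) ∈ side (ball p r) 1) ∧
      (∀ᶠ ε : ℝ in 𝓝[>] 0, (x - ε * Complex.I : ℂ) ∈ side (ball p r) (-1)) := by
    intro x hx
    have hca : ContinuousAt w x := hwc.continuousAt (isOpen_ball.mem_nhds hx)
    have c1 : Tendsto (fun ε : ℝ => (x + ε * Complex.I : ℂ)) (𝓝[>] 0) (𝓝 x) := by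
      have : Continuous fun ε : ℝ => (x + ε * Complex.I : ℂ) := by fun_prop
      have h0 := this.tendsto 0
      rw [Complex.ofReal_zero, zero_mul, add_zero] at h0
      exact h0.mono_left nhdsWithin_le_nhds
    have c2 : Tendsto (fun ε : ℝ => (x - ε * Complex.I : ℂ)) (𝓝[>] 0) (𝓝 x) := by
      have : Continuous fun ε : ℝ => (x - ε * Complex.I : ℂ) := by fun_prop
      have h0 := this.tendsto 0
      rw [Complex.ofReal_zero, zero_mul, sub_zero] at h0
      exact h0.mono_left nhdsWithin_le_nhds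
    refine ⟨hca.tendsto.comp c1, hca.tendsto.comp c2, ?_, ?_⟩
    · filter_upwards [c1 (isOpen_ball.mem_nhds hx), self_mem_nhdsWithin] with ε h1 h2
      refine ⟨h1, ?_⟩
      have h2' : 0 < ε := h2
      simpa using h2'
    · filter_upwards [c2 (isOpen_ball.mem_nhds hx), self_mem_nhdsWithin] with ε h1 h2
      refine ⟨h1, ?_⟩
      have h2' : 0 < ε := h2
      simpa using h2'
  have hwm : ∀ x : ℝ, (x : ℂ) ∈ ball p r → w x = Fm x := by
    intro x hx
    obtain ⟨-, l2, -, l4⟩ := lim_w x hx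
    refine tendsto_nhds_unique l2 ((lim_down h.lm x).congr' ?_)
    filter_upwards [l4] with ε hε
    exact (b1 hε).symm
  -- the two cases
  have hmem : ∀ t : ℝ, |t - x₀| < r → (t : ℂ) ∈ ball p r := by
    intro t ht
    rw [mem_ball, dist_eq_norm, hp, ← Complex.ofReal_sub, Complex.norm_real, Real.norm_eq_abs]
    exact ht
  rcases b3 with hc | hc
  · -- contradiction at an odd gap
    obtain ⟨t, t1, t2, hodd⟩ := d.gap1 x₀ hx₀ r hr
    obtain ⟨l1, -, l3, -⟩ := lim_w t (hmem t t1)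
    have e1 : w t = Fp t := by
      refine tendsto_nhds_unique l1 ((lim_up h.lp t).congr' ?_)
      filter_upwards [l3] with ε hε
      exact (hc _ hε).symm
    have e2 := h.eh t
    rw [hodd, ← e1, hwm t (hmem t t1), sub_self] at e2
    apply t2
    simpa using e2.symm
  · obtain ⟨t, t1, t2, heven⟩ := d.gap0 x₀ hx₀ r hr
    obtain ⟨l1, -, l3, -⟩ := lim_w t (hmem t t1)
    have e1 : w t = Fp t - q t := by
      refine tendsto_nhds_unique l1 ((lim_up h.lq t).congr' ?_)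
      filter_upwards [l3] with ε hε
      exact (hc _ hε).symm
    have e2 := h.eh t
    rw [heven] at e2
    rw [hwm t (hmem t t1)] at e1
    apply t2
    rw [e1] at e2
    simpa using e2

/-- the general construction -/
theorem QD.main (d : QD K q q' χ) :
    ∃ (φ : ℝ → ℂ) (gp : ℂ → Fin 2 → ℂ) (gm : ℂ → Fin 1 → ℂ),
      ContDiff ℝ ∞ φ ∧ IsDirMinimizing 1 (ball 0 1) φ gp gm ∧
        ∀ x ∈ K, IsGenuine 1 (ball 0 1) gp gm (x : ℂ) := by
  obtain ⟨φ, Fp, Fm, Fp', Fm', L, h⟩ := d.ex_exists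
  exact ⟨φ, fun z => ![Fp z, Fp z - q z], fun z => ![Fm z], h.sm, h.minimizing d,
    fun x hx => h.genuine d hx⟩

end Pool.Agent.Y305.GD
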