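import Pool.Agent.Y305.GD.Fun

/-! The other points of the interface are regular. -/

set_option autoImplicit false

open MeasureTheory Metric Set Filter Topology
open scoped ContDiff ENNReal

namespace Pool.Agent.Y305.GD

open Pool.Agent.TH300 (G side G_swap G_one pj pj_of pj_of_neg pj_lip)

/-- `p ∈ Ω ∩ ℝ` is a regular boundary point of `(gp, gm)`: for some ball `B = B_r(p) ⊆ Ω` there are
continuous `u_i : B → ℝ²` (`i < K`) and `u₁ : B⁺ → ℝ²` with
(i) `gp = [[u₁]] + ∑ [[u_i]]` on `B⁺` and `gm = ∑ [[u_i]]` on `B⁻` (almost everywhere);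
(ii) for all `i, j` the graphs of `u_i` and `u_j` are disjoint or equal;
(iii) for all `i` the graph of `u₁` is disjoint from the graph of `u_i` or contained in it. -/
def IsRegularPt (K : ℕ) (Ω : Set ℂ) (gp : ℂ → Fin (K + 1) → ℂ) (gm : ℂ → Fin K → ℂ) (p : ℂ) :
    Prop :=
  p ∈ Ω ∧ p.im = 0 ∧ ∃ r : ℝ, 0 < r ∧ ball p r ⊆ Ω ∧
    ∃ (u : Fin K → ℂ → ℂ) (u₁ : ℂ → ℂ), (∀ i, ContinuousOn (u i) (ball p r)) ∧
      ContinuousOn u₁ (side (ball p r) 1) ∧
      (∀ᵐ z ∂(volume.restrict (side (ball p r) 1)),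
        G (gp z) (Fin.cons (u₁ z) (fun i => u i z)) = 0) ∧
      (∀ᵐ z ∂(volume.restrict (side (ball p r) (-1))), G (gm z) (fun i => u i z) = 0) ∧
      (∀ i j, (∀ z ∈ ball p r, u i z = u j z) ∨ ∀ z ∈ ball p r, u i z ≠ u j z) ∧
      ∀ i, (∀ z ∈ side (ball p r) 1, u₁ z = u i z) ∨ ∀ z ∈ side (ball p r) 1, u₁ z ≠ u i z

/-- a regular point is not a genuine singularity -/
theorem IsRegularPt.not_genuine {K : ℕ} {Ω : Set ℂ} {gp : ℂ → Fin (K + 1) → ℂ}
    {gm : ℂ → Fin K → ℂ} {p : ℂ} (h : IsRegularPt K Ω gp gm p) :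
    ¬ Pool.Agent.TH300.IsGenuine K Ω gp gm p := by
  rintro ⟨-, -, h2⟩
  obtain ⟨-, -, r, hr, hs, u, u₁, a1, a2, a3, a4, a5, -⟩ := h
  exact h2 ⟨r, hr, hs, u, u₁, a1, a2, a3, a4, a5⟩

theorem cont_of_lip {f : ℂ → ℂ} {L : ℝ} (hL : 0 ≤ L) (h : ∀ z w, ‖f z - f w‖ ≤ L * ‖z - w‖) :
    Continuous f := by
  refine (LipschitzWith.of_dist_le_mul (K := ⟨L, hL⟩) fun z w => ?_).continuous
  rw [dist_eq_norm, dist_eq_norm]
  exact h z w

theorem glue {F₀ Fm : ℂ → ℂ} {L : ℝ} (hL : 0 ≤ L)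
    (h0 : ∀ z w : ℂ, 0 ≤ 1 * z.im → 0 ≤ 1 * w.im → ‖F₀ z - F₀ w‖ ≤ L * ‖z - w‖)
    (hm : ∀ z w : ℂ, 0 ≤ -1 * z.im → 0 ≤ -1 * w.im → ‖Fm z - Fm w‖ ≤ L * ‖z - w‖)
    {x r : ℝ} (heq : ∀ t : ℝ, |t - x| < r → F₀ t = Fm t) :
    ∃ u : ℂ → ℂ, Continuous u ∧ (∀ z, 0 ≤ z.im → u z = F₀ z) ∧
      ∀ z ∈ ball (x : ℂ) r, z.im ≤ 0 → u z = Fm z := by
  have p1 := Or.inl rfl (b := (1:ℝ) = -1) (a := (1:ℝ) = 1)
  have p2 := Or.inr rfl (b := (-1:ℝ) = -1) (a := (-1:ℝ) = 1)
  refine ⟨fun z => F₀ (pj 1 z) + Fm (pj (-1) z) - Fm (z.re : ℂ), ?_, fun z hz => ?_,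
    fun z hz hz0 => ?_⟩
  · have c1 : Continuous fun z => F₀ (pj 1 z) := cont_of_lip hL fun z w =>
      (h0 _ _ (Pool.Agent.TH300.pj_im p1 z) (Pool.Agent.TH300.pj_im p1 w)).trans
        (mul_le_mul_of_nonneg_left (pj_lip p1 z w) hL)
    have c2 : Continuous fun z => Fm (pj (-1) z) := cont_of_lip hL fun z w =>
      (hm _ _ (Pool.Agent.TH300.pj_im p2 z) (Pool.Agent.TH300.pj_im p2 w)).trans
        (mul_le_mul_of_nonneg_left (pj_lip p2 z w) hL)
    have c3 : Continuous fun z : ℂ => Fm (z.re : ℂ) := cont_of_lip hL fun z w =>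
      (hm _ _ (by simp) (by simp)).trans (mul_le_mul_of_nonneg_left (by
        rw [← Complex.ofReal_sub, Complex.norm_real, Real.norm_eq_abs, ← Complex.sub_re]
        exact Complex.abs_re_le_norm _) hL)
    exact (c1.add c2).sub c3
  · simp only
    rw [pj_of p1 (by linarith), pj_of_neg (by linarith)]
    ring
  · simp only
    rw [pj_of_neg (by linarith), pj_of p2 (by linarith), heq z.re ?_]
    · ring
    · rw [mem_ball, dist_eq_norm] at hz
      refine lt_of_le_of_lt ?_ hz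
      have := Complex.abs_re_le_norm (z - x)
      simpa using this

variable {K : Set ℝ} {q q' : ℂ → ℂ} {χ : ℝ → ℝ}
variable {φ : ℝ → ℂ} {Fp Fm Fp' Fm' : ℂ → ℂ} {L : ℝ}

theorem G_refl {Q : ℕ} (S : Fin Q → ℂ) : G S S = 0 := by
  refine le_antisymm ?_ ?_
  · refine (Pool.Agent.TH300.G_le S S 1).trans (le_of_eq ?_)
    simp [Pool.Agent.TH300.nr]
  · exact Pool.Agent.TH300.G_nonneg S S

theorem Ex.regular (d : QD K q q' χ) (h : Ex q χ φ Fp Fm Fp' Fm' L) {x : ℝ} (hx : |x| < 1)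
    (hloc : ∀ᶠ s in 𝓝 x, χ s = χ x) :
    IsRegularPt 1 (ball 0 1) (fun z => ![Fp z, Fp z - q z]) (fun z => ![Fm z]) (x : ℂ) := by
  obtain ⟨δ, hδ, hδ2⟩ := Metric.eventually_nhds_iff.1 hloc
  set r := min δ (1 - |x|) with hr
  have hr0 : 0 < r := lt_min hδ (by linarith)
  have hχ : ∀ t : ℝ, |t - x| < r → χ t = χ x := fun t ht =>
    hδ2 (by rw [Real.dist_eq]; exact ht.trans_le (min_le_left _ _))
  have hFpc : ContinuousOn Fp (side (ball (x : ℂ) r) 1) := fun z hz =>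
    (h.dp z hz.2).continuousAt.continuousWithinAt
  have hqc : ContinuousOn q (side (ball (x : ℂ) r) 1) := fun z hz =>
    (d.der z (by linarith [hz.2])).continuousAt.continuousWithinAt
  have hqne : ∀ z ∈ side (ball (x : ℂ) r) 1, q z ≠ 0 := fun z hz => d.ne z (by linarith [hz.2])
  have hmeas : ∀ σ, MeasurableSet (side (ball (x : ℂ) r) σ) := fun σ =>
    (Pool.Agent.TH300.isOpen_side isOpen_ball σ).measurableSet
  refine ⟨?_, by simp, r, hr0, ?_, ?_⟩
  · rw [mem_ball_zero_iff, Complex.norm_real, Real.norm_eq_abs]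
    exact hx
  · refine ball_subset_ball' ?_
    rw [dist_zero_right, Complex.norm_real, Real.norm_eq_abs]
    have := min_le_right δ (1 - |x|)
    linarith
  rcases d.cases x with hc | hc
  · -- `Fm` continues `Fp`
    obtain ⟨u, u1, u2, u3⟩ := glue (F₀ := Fp) (Fm := Fm) h.hL h.lp h.lm (x := x) (r := r) (by
      intro t ht
      have := h.eh t
      rw [hχ t ht, hc, Complex.ofReal_zero, zero_mul] at this
      exact sub_eq_zero.1 this)
    refine ⟨fun _ => u, fun z => Fp z - q z, fun _ => u1.continuousOn, hFpc.sub hqc, ?_, ?_,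
      fun i j => Or.inl fun z _ => rfl, fun i => Or.inr fun z hz => ?_⟩
    · filter_upwards [self_mem_ae_restrict (hmeas 1)] with z hz
      have e : (Fin.cons (Fp z - q z) (fun _ => u z) : Fin 2 → ℂ) = ![Fp z - q z, Fp z] := by
        rw [u2 z (by linarith [hz.2])]
        ext i
        fin_cases i <;> rfl
      show G ![Fp z, Fp z - q z] (Fin.cons (Fp z - q z) (fun _ => u z)) = 0
      rw [e, G_swap]
      exact G_refl _
    · filter_upwards [self_mem_ae_restrict (hmeas (-1))] with z hz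
      rw [G_one]
      show ‖Fm z - u z‖ = 0
      rw [u3 z hz.1 (by linarith [hz.2]), sub_self, norm_zero]
    · show Fp z - q z ≠ u z
      rw [u2 z (by linarith [hz.2])]
      intro he
      exact hqne z hz (by linear_combination -he)
  · obtain ⟨u, u1, u2, u3⟩ := glue (F₀ := fun z => Fp z - q z) (Fm := Fm) h.hL h.lq h.lm (x := x)
      (r := r) (by
      intro t ht
      have := h.eh t
      rw [hχ t ht, hc, Complex.ofReal_one, one_mul] at this
      show Fp t - q t = Fm t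
      linear_combination this)
    refine ⟨fun _ => u, Fp, fun _ => u1.continuousOn, hFpc, ?_, ?_,
      fun i j => Or.inl fun z _ => rfl, fun i => Or.inr fun z hz => ?_⟩
    · filter_upwards [self_mem_ae_restrict (hmeas 1)] with z hz
      have e : (Fin.cons (Fp z) (fun _ => u z) : Fin 2 → ℂ) = ![Fp z, Fp z - q z] := by
        rw [u2 z (by linarith [hz.2])]
        ext i
        fin_cases i <;> rfl
      show G ![Fp z, Fp z - q z] (Fin.cons (Fp z) (fun _ => u z)) = 0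
      rw [e]
      exact G_refl _
    · filter_upwards [self_mem_ae_restrict (hmeas (-1))] with z hz
      rw [G_one]
      show ‖Fm z - u z‖ = 0
      rw [u3 z hz.1 (by linarith [hz.2]), sub_self, norm_zero]
    · show Fp z ≠ u z
      rw [u2 z (by linarith [hz.2])]
      intro he
      exact hqne z hz (by linear_combination he)

end Pool.Agent.Y305.GD
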